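import Pool.Agent.R866.AP.Main

/-!
# The tropical Abel-Prym map over a 2-connected graph is injective as soon as it is finite

Let `π : Γ' → Γ` be a free double cover of metric graphs with `Γ'` connected and covering involution
`ι`, such that `Γ` is 2-connected. If the Abel-Prym map `Ψ₁ : p ↦ [p - ι p]` has finite fibres, then it
is injective. (The assumption that `Γ'` is not hyperelliptic is not needed.)

Idea of the proof: if `p - ι p ~ q - ι q` with `p ≠ q`, the rational function `f` with divisor
`p - ι p - q + ι q` can be normalized to satisfy `f ∘ ι = - f`. The divisor of `|f|` has degree `0`;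
this forces the slopes of `f` on its zero set to be concentrated in one pair `u, ι u`; since `Γ` is
2-connected, `{u, ι u}` is the whole zero set, and `u` has exactly two tangent directions, with
slopes `1` and `-1`. Then `Ψ₁` is constant near `u`, so it is not finite.
-/

set_option autoImplicit false

namespace Pool.Agent.Results.MP_10cdc7_ag.AbelPrymInjective

open Pool.Agent.R866.AP

/-- Let `π : Γ' → Γ` be a free double cover of metric graphs with `Γ'` connected and `Γ`
2-connected. If the Abel-Prym map `Ψ₁` is finite, then it is injective. -/
theorem result (Γ' Γ : MetricGraph) (π : FreeDoubleCover Γ' Γ) (hc : ConnectedSpace Γ'.Pt)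
    (h2 : TwoConnected Γ) (hfin : π.FiniteAbelPrym) : π.InjectiveAbelPrym :=
  injective_of_finite π h2 hfin

end Pool.Agent.Results.MP_10cdc7_ag.AbelPrymInjective
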